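import Pool.Agent.J4H7.AF.Stm

set_option autoImplicit false

/-!
# Project AF, piece (CLOSE): the Chebyshev sign argument on one separated box (helper7)
-/

namespace Pool.Agent.J4H7.AF

open Finset
open Pool.Agent.J4H7.WT (sg sg_sq sg_tel DD)

/-- the linear factor at the gap between the levels `l` and `l + 1` -/
noncomputable def wz (ζ : ℕ → ℝ) (s : ℕ → Bool) (l : ℕ) : Polynomial ℝ :=
  if s l = s (l + 1) then 1 else Polynomial.X - Polynomial.C (ζ l)

/-- the polynomial with prescribed signs -/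
noncomputable def Qz (ζ : ℕ → ℝ) (s : ℕ → Bool) (a t : ℕ) : Polynomial ℝ := ∏ l ∈ Ico a t, wz ζ s l

lemma wz_deg (ζ : ℕ → ℝ) (s : ℕ → Bool) (l : ℕ) : (wz ζ s l).natDegree ≤ 1 := by
  unfold wz
  split_ifs
  · simp
  · exact (Polynomial.natDegree_X_sub_C_le _)

lemma Qz_deg (ζ : ℕ → ℝ) (s : ℕ → Bool) (a t : ℕ) : (Qz ζ s a t).natDegree ≤ t - a := by
  unfold Qz
  refine (Polynomial.natDegree_prod_le _ _).trans ?_
  calc ∑ l ∈ Ico a t, (wz ζ s l).natDegree ≤ ∑ _l ∈ Ico a t, 1 := Finset.sum_le_sum fun l _ => wz_deg ζ s l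
    _ = t - a := by simp

/-- **the signs** -/
lemma Qz_sign (ζ : ℕ → ℝ) (s : ℕ → Bool) (a j t : ℕ) (haj : a ≤ j) (hjt : j ≤ t) {z : ℝ}
    (h1 : ∀ l, a ≤ l → l < j → ζ l + 1 / 2 ≤ z) (h2 : ∀ l, j ≤ l → l < t → z + 1 / 2 ≤ ζ l) :
    (1 / 2 : ℝ) ^ (t - a) ≤ sg (s j) * sg (s t) * (Qz ζ s a t).eval z := by
  unfold Qz
  rw [← sg_tel s a j t haj hjt, Polynomial.eval_prod, ← Finset.prod_mul_distrib]
  have h3 : ∏ _l ∈ Ico a t, (1 / 2 : ℝ) = (1 / 2 : ℝ) ^ (t - a) := by simp
  rw [← h3]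
  apply Finset.prod_le_prod
  · intro l _
    norm_num
  · intro l hl
    rw [Finset.mem_Ico] at hl
    by_cases hjl : j ≤ l
    · rw [if_pos hjl]
      have h4 := h2 l hjl hl.2
      unfold wz
      split_ifs with h
      · rw [← h, sg_sq]
        simp
        norm_num
      · have h5 : sg (s l) * sg (s (l + 1)) = -1 := by
          cases h6 : s l <;> cases h7 : s (l + 1) <;> simp_all [sg]
        rw [h5]
        simp only [Polynomial.eval_sub, Polynomial.eval_X, Polynomial.eval_C]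
        linarith
    · rw [if_neg hjl, one_mul]
      have h4 := h1 l hl.1 (by omega)
      unfold wz
      split_ifs
      · simp
        norm_num
      · simp only [Polynomial.eval_sub, Polynomial.eval_X, Polynomial.eval_C]
        linarith

/-- the coefficients -/
lemma Qz_coeff (ζ : ℕ → ℝ) (s : ℕ → Bool) (a t : ℕ) (hat : a ≤ t) {Z : ℝ} (hZ : 1 ≤ Z) (hζ : ∀ l, a ≤ l → l < t → |ζ l| ≤ Z) (i : ℕ) :
    |(Qz ζ s a t).coeff i| * Z ^ i ≤ (2 * Z) ^ (t - a) := by
  induction t, hat using Nat.le_induction generalizing i with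
  | base =>
    unfold Qz
    simp only [Finset.Ico_self, Finset.prod_empty, tsub_self, pow_zero, Polynomial.coeff_one]
    split_ifs with h
    · rw [h]
      simp
    · simp
  | succ t hat ih =>
    have ih' := ih fun l h1 h2 => hζ l h1 (by omega)
    have e1 : Qz ζ s a (t + 1) = Qz ζ s a t * wz ζ s t := by
      unfold Qz
      rw [Finset.prod_Ico_succ_top (by omega)]
    have e2 : t + 1 - a = (t - a) + 1 := by omega
    rw [e1, e2, pow_succ]
    have hp : 0 ≤ (2 * Z) ^ (t - a) := by positivity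
    unfold wz
    split_ifs with h
    · rw [mul_one]
      refine (ih' i).trans ?_
      nlinarith
    · rw [mul_sub, Polynomial.coeff_sub, Polynomial.coeff_mul_C]
      have hz := hζ t hat (by omega)
      have h3 : |(Qz ζ s a t).coeff i * ζ t| * Z ^ i ≤ (2 * Z) ^ (t - a) * Z := by
        rw [abs_mul]
        calc |(Qz ζ s a t).coeff i| * |ζ t| * Z ^ i = (|(Qz ζ s a t).coeff i| * Z ^ i) * |ζ t| := by ring
          _ ≤ _ := mul_le_mul (ih' i) hz (abs_nonneg _) hp
      have h4 : |(Qz ζ s a t * Polynomial.X).coeff i| * Z ^ i ≤ (2 * Z) ^ (t - a) * Z := by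
        cases i with
        | zero =>
          simp
          positivity
        | succ i =>
          rw [Polynomial.coeff_mul_X, pow_succ, ← mul_assoc]
          exact mul_le_mul_of_nonneg_right (ih' i) (by linarith)
      have h5 : (0 : ℝ) ≤ Z ^ i := by positivity
      calc |(Qz ζ s a t * Polynomial.X).coeff i - (Qz ζ s a t).coeff i * ζ t| * Z ^ i
          ≤ (|(Qz ζ s a t * Polynomial.X).coeff i| + |(Qz ζ s a t).coeff i * ζ t|) * Z ^ i :=
            mul_le_mul_of_nonneg_right (abs_sub _ _) h5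
        _ = |(Qz ζ s a t * Polynomial.X).coeff i| * Z ^ i + |(Qz ζ s a t).coeff i * ζ t| * Z ^ i := by ring
        _ ≤ _ := by linarith

/-- **the sign argument** -/
lemma chebz (a t : ℕ) (hat : a ≤ t) (ζ p : ℕ → ℝ) (q : ℝ) (hq : 0 ≤ q) (hp : ∀ j, a ≤ j → j ≤ t → q ≤ (p j) ^ a) (hp0 : ∀ j, j ≤ t → 0 ≤ p j)
    (hζ1 : ∀ l j, l < j → j ≤ t → ζ l + 1 / 2 ≤ p j) (hζ2 : ∀ l j, j ≤ l → l < t → p j + 1 + 1 / 2 ≤ ζ l)
    (u v : ℕ → ℝ) (hu : ∀ j ≤ t, p j ≤ u j ∧ u j ≤ p j + 1) (hv : ∀ j ≤ t, p j ≤ v j ∧ v j ≤ p j + 1) (huv : ∀ j < a, u j = v j)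
    {Z B : ℝ} (hZ : 1 ≤ Z) (hζ : ∀ l, a ≤ l → l < t → |ζ l| ≤ Z)
    (hB : ∀ i, a < i → i ≤ t + 1 → |∑ j ∈ range (t + 1), (u j ^ i - v j ^ i)| ≤ B) :
    (1 / 2 : ℝ) ^ (t - a) * q * ∑ j ∈ range (t + 1), |u j - v j| ≤ (t + 1) * (2 * Z) ^ (t - a) * B := by
  set s : ℕ → Bool := fun j => decide (v j ≤ u j) with hs
  set Q := Qz ζ s a t with hQ
  -- the antiderivative of `z ^ a * Q z`
  set G : ℝ → ℝ := fun z => ∑ i ∈ range (t - a + 1), Q.coeff i / ((a + i + 1 : ℕ) : ℝ) * z ^ (a + i + 1) with hG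
  have hGd : ∀ z : ℝ, HasDerivAt G (z ^ a * Q.eval z) z := by
    intro z
    have h1 : HasDerivAt G (∑ i ∈ range (t - a + 1), Q.coeff i / ((a + i + 1 : ℕ) : ℝ) * (((a + i + 1 : ℕ) : ℝ) * z ^ (a + i))) z := by
      rw [hG]
      apply HasDerivAt.fun_sum
      intro i _
      have := (hasDerivAt_pow (a + i + 1) z).const_mul (Q.coeff i / ((a + i + 1 : ℕ) : ℝ))
      simpa using this
    refine h1.congr_deriv ?_
    rw [Polynomial.eval_eq_sum_range' (Nat.lt_succ_of_le (Qz_deg ζ s a t)), Finset.mul_sum]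
    refine Finset.sum_congr rfl fun i _ => ?_
    have : ((a + i + 1 : ℕ) : ℝ) ≠ 0 := by positivity
    rw [pow_add]
    field_simp
    rw [← hQ]
    ring
  -- each level
  have hlev : ∀ j ∈ range (t + 1), (1 / 2 : ℝ) ^ (t - a) * q * |u j - v j| ≤ sg (s t) * (G (u j) - G (v j)) := by
    intro j hj
    have hjt : j ≤ t := by
      have := Finset.mem_range.1 hj
      omega
    rcases Nat.lt_or_ge j a with hja | hja
    · rw [huv j hja]
      simp
    · obtain ⟨u1, u2⟩ := hu j hjt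
      obtain ⟨v1, v2⟩ := hv j hjt
      have hpj := hp0 j hjt
      have hqj := hp j hja hjt
      have h7 : (0 : ℝ) ≤ (1 / 2 : ℝ) ^ (t - a) := by positivity
      have hsign : ∀ ξ : ℝ, p j ≤ ξ → ξ ≤ p j + 1 → (1 / 2 : ℝ) ^ (t - a) ≤ sg (s j) * sg (s t) * Q.eval ξ := by
        intro ξ h1 h2
        refine Qz_sign ζ s a j t hja hjt ?_ ?_
        · intro l _ hl
          have := hζ1 l j hl hjt
          linarith
        · intro l hl hl2
          have := hζ2 l j hl hl2
          linarith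
      have hpow : ∀ ξ : ℝ, p j ≤ ξ → q ≤ ξ ^ a := fun ξ h1 => hqj.trans (pow_le_pow_left₀ hpj h1 a)
      rcases lt_trichotomy (v j) (u j) with h | h | h
      · obtain ⟨ξ, hξ, h3⟩ := exists_hasDerivAt_eq_slope G _ h (fun z _ => (hGd z).continuousAt.continuousWithinAt)
          (fun z _ => hGd z)
        rw [eq_div_iff (by linarith)] at h3
        have h4 := hsign ξ (by linarith [hξ.1]) (by linarith [hξ.2])
        have h5 : sg (s j) = 1 := by
          simp [hs, sg, h.le]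
        rw [h5, one_mul] at h4
        have h6 := hpow ξ (by linarith [hξ.1])
        rw [← h3, abs_of_pos (by linarith)]
        have h8 : (1 / 2 : ℝ) ^ (t - a) * q ≤ sg (s t) * (ξ ^ a * Q.eval ξ) := by
          calc (1 / 2 : ℝ) ^ (t - a) * q ≤ (1 / 2 : ℝ) ^ (t - a) * ξ ^ a := mul_le_mul_of_nonneg_left h6 h7
            _ = ξ ^ a * (1 / 2 : ℝ) ^ (t - a) := by ring
            _ ≤ ξ ^ a * (sg (s t) * Q.eval ξ) := mul_le_mul_of_nonneg_left h4 (hq.trans h6)
            _ = _ := by ring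
        calc (1 / 2 : ℝ) ^ (t - a) * q * (u j - v j) ≤ sg (s t) * (ξ ^ a * Q.eval ξ) * (u j - v j) :=
              mul_le_mul_of_nonneg_right h8 (by linarith)
          _ = _ := by ring
      · rw [h]
        simp
      · obtain ⟨ξ, hξ, h3⟩ := exists_hasDerivAt_eq_slope G _ h (fun z _ => (hGd z).continuousAt.continuousWithinAt)
          (fun z _ => hGd z)
        rw [eq_div_iff (by linarith)] at h3
        have h4 := hsign ξ (by linarith [hξ.1]) (by linarith [hξ.2])
        have h5 : sg (s j) = -1 := by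
          have : ¬ (v j ≤ u j) := not_le.2 h
          simp [hs, sg, this]
        rw [h5] at h4
        have h6 := hpow ξ (by linarith [hξ.1])
        have h9 : G (u j) - G (v j) = -(ξ ^ a * Q.eval ξ * (v j - u j)) := by
          rw [h3]
          ring
        rw [h9, abs_of_neg (by linarith)]
        have h8 : (1 / 2 : ℝ) ^ (t - a) * q ≤ -(sg (s t) * (ξ ^ a * Q.eval ξ)) := by
          calc (1 / 2 : ℝ) ^ (t - a) * q ≤ (1 / 2 : ℝ) ^ (t - a) * ξ ^ a := mul_le_mul_of_nonneg_left h6 h7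
            _ = ξ ^ a * (1 / 2 : ℝ) ^ (t - a) := by ring
            _ ≤ ξ ^ a * (-1 * sg (s t) * Q.eval ξ) := mul_le_mul_of_nonneg_left h4 (hq.trans h6)
            _ = _ := by ring
        calc (1 / 2 : ℝ) ^ (t - a) * q * -(u j - v j) ≤ -(sg (s t) * (ξ ^ a * Q.eval ξ)) * -(u j - v j) :=
              mul_le_mul_of_nonneg_right h8 (by linarith)
          _ = _ := by ring
  rw [Finset.mul_sum]
  refine (Finset.sum_le_sum hlev).trans ?_
  rw [← Finset.mul_sum]
  have hsum : ∑ j ∈ range (t + 1), (G (u j) - G (v j)) =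
      ∑ i ∈ range (t - a + 1), Q.coeff i / ((a + i + 1 : ℕ) : ℝ) * ∑ j ∈ range (t + 1), (u j ^ (a + i + 1) - v j ^ (a + i + 1)) := by
    simp_rw [Finset.mul_sum]
    rw [Finset.sum_comm]
    refine Finset.sum_congr rfl fun j _ => ?_
    rw [hG]
    simp only
    rw [← Finset.sum_sub_distrib]
    refine Finset.sum_congr rfl fun i _ => ?_
    ring
  have hBn : 0 ≤ B := (abs_nonneg _).trans (hB (t + 1) (by omega) le_rfl)
  have habs : |sg (s t)| = 1 := by
    cases s t <;> simp [sg]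
  have hP : 0 ≤ (2 * Z) ^ (t - a) := by positivity
  calc sg (s t) * ∑ j ∈ range (t + 1), (G (u j) - G (v j)) ≤ |sg (s t) * ∑ j ∈ range (t + 1), (G (u j) - G (v j))| := le_abs_self _
    _ = |∑ j ∈ range (t + 1), (G (u j) - G (v j))| := by rw [abs_mul, habs, one_mul]
    _ ≤ ∑ i ∈ range (t - a + 1), (2 * Z) ^ (t - a) * B := by
        rw [hsum]
        refine (Finset.abs_sum_le_sum_abs _ _).trans ?_
        refine Finset.sum_le_sum fun i hi => ?_
        have hi' := Finset.mem_range.1 hi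
        rw [abs_mul, abs_div]
        have h1 : (1 : ℝ) ≤ |((a + i + 1 : ℕ) : ℝ)| := by
          rw [abs_of_nonneg (by positivity)]
          have : 1 ≤ a + i + 1 := by omega
          exact_mod_cast this
        have h2 : |Q.coeff i| / |((a + i + 1 : ℕ) : ℝ)| ≤ |Q.coeff i| := div_le_self (abs_nonneg _) h1
        have h3 : |Q.coeff i| ≤ (2 * Z) ^ (t - a) := by
          have h4 := Qz_coeff ζ s a t hat hZ hζ i
          have h5 : (1 : ℝ) ≤ Z ^ i := one_le_pow₀ hZ
          have h6 := abs_nonneg (Q.coeff i)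
          rw [← hQ] at h4
          nlinarith
        exact mul_le_mul (h2.trans h3) (hB _ (by omega) (by omega)) (abs_nonneg _) hP
    _ = ((t - a + 1 : ℕ) : ℝ) * ((2 * Z) ^ (t - a) * B) := by simp
    _ ≤ (t + 1) * ((2 * Z) ^ (t - a) * B) := by
        apply mul_le_mul_of_nonneg_right _ (mul_nonneg hP hBn)
        have : t - a + 1 ≤ t + 1 := by omega
        exact_mod_cast this
    _ = _ := by ring

theorem t_CLOSE : S_CLOSE := by
  intro t K hK
  refine ⟨1 + 2 ^ t * ((t + 1) * (2 * (2 * K)) ^ t), ?_, ?_⟩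
  · have : (0 : ℝ) ≤ 2 ^ t * ((t + 1) * (2 * (2 * K)) ^ t) := by positivity
    linarith
  intro P L hL c hc x hx x' hx' a hat hag R hR j
  have hK1 : (1 : ℝ) ≤ K := by exact_mod_cast hK
  have hL1 : (1 : ℝ) ≤ L := by exact_mod_cast hL
  have hL0 : (0 : ℝ) < L := by linarith
  have hP0 : (0 : ℝ) ≤ P := by positivity
  have hR0 : 0 ≤ R := (abs_nonneg _).trans (hR 1 le_rfl (by omega))
  unfold Sep at hc
  rw [Finset.mem_filter, Fintype.mem_piFinset] at hc
  obtain ⟨hc1, hc2⟩ := hc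
  set cc : ℕ → ℕ := fun j => if h : j < t + 1 then c ⟨j, h⟩ else 0 with hcc
  have hccv : ∀ j (h : j < t + 1), cc j = c ⟨j, h⟩ := by
    intro j h
    rw [hcc]
    simp only
    rw [dif_pos h]
  have hcc2 : ∀ i j, i < j → j < t + 1 → cc i + 2 ≤ cc j := by
    intro i j hij hj
    rw [hccv i (by omega), hccv j hj]
    exact hc2 _ _ (by simpa using hij)
  have hccK : ∀ j, j < t + 1 → cc j < K := by
    intro j hj
    rw [hccv j hj]
    exact Finset.mem_range.1 (hc1 _)
  have hccj : ∀ j, j < t + 1 → 2 * j ≤ cc j := by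
    intro j
    induction j with
    | zero => intro _; simp
    | succ j ih =>
      intro hj
      have h1 := ih (by omega)
      have h2 := hcc2 j (j + 1) (by omega) hj
      omega
  set p : ℕ → ℝ := fun j => (K : ℝ) * P + cc j with hp
  set ζ : ℕ → ℝ := fun l => (K : ℝ) * P + cc l + 3 / 2 with hζ
  set u : ℕ → ℝ := fun j => if h : j < t + 1 then (x ⟨j, h⟩ : ℝ) / L else 0 with hu
  set v : ℕ → ℝ := fun j => if h : j < t + 1 then (x' ⟨j, h⟩ : ℝ) / L else 0 with hv
  have rng : ∀ y ∈ BX K P L c, ∀ j (h : j < t + 1), p j ≤ (y ⟨j, h⟩ : ℝ) / L ∧ (y ⟨j, h⟩ : ℝ) / L ≤ p j + 1 := by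
    intro y hy j h
    have h1 := Fintype.mem_piFinset.1 hy ⟨j, h⟩
    unfold Iv at h1
    rw [Finset.mem_Ico, ← hccv j h] at h1
    have h2 : (((K : ℝ) * P + cc j) * L : ℝ) ≤ y ⟨j, h⟩ := by exact_mod_cast h1.1
    have h3 : (y ⟨j, h⟩ : ℝ) ≤ ((K : ℝ) * P + cc j + 1) * L := by exact_mod_cast h1.2.le
    rw [hp]
    simp only
    constructor
    · rw [le_div_iff₀ hL0]
      exact h2
    · rw [div_le_iff₀ hL0]
      exact h3
  have hKP : (P : ℝ) ≤ K * P := by nlinarith
  have hccr : ∀ i j, i < j → j < t + 1 → (cc i : ℝ) + 2 ≤ cc j := by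
    intro i j hij hj
    exact_mod_cast hcc2 i j hij hj
  have key := chebz a t hat ζ p (((P : ℝ) + 1) ^ a) (by positivity) (by
      intro j hja hjt
      rcases Nat.eq_zero_or_pos a with h0 | h0
      · rw [h0]
        simp
      · apply pow_le_pow_left₀ (by linarith)
        have h1 := hccj j (by omega)
        have h2 : (1 : ℝ) ≤ cc j := by
          have : 1 ≤ cc j := by omega
          exact_mod_cast this
        rw [hp]
        simp only
        linarith) (by
      intro j _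
      rw [hp]
      simp only
      positivity) (by
      intro l j hlj hjt
      have := hccr l j hlj (by omega)
      rw [hp, hζ]
      simp only
      linarith) (by
      intro l j hjl hlt
      rw [hp, hζ]
      simp only
      have h1 : (cc j : ℝ) ≤ cc l := by
        rcases hjl.eq_or_lt with h | h
        · rw [h]
        · have := hccr j l h (by omega)
          linarith
      linarith) u v (fun j hj => by
      rw [hu]
      simp only
      rw [dif_pos (by omega)]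
      exact rng x hx j (by omega)) (fun j hj => by
      rw [hv]
      simp only
      rw [dif_pos (by omega)]
      exact rng x' hx' j (by omega)) (fun j hj => by
      rw [hu, hv]
      simp only
      rw [dif_pos (by omega), dif_pos (by omega), hag ⟨j, by omega⟩ hj]) (Z := 2 * K * ((P : ℝ) + 1)) (B := R / (L : ℝ) ^ (a + 1)) (by
      nlinarith) (by
      intro l _ hlt
      have h1 := hccK l (by omega)
      have h2 : (cc l : ℝ) + 1 ≤ K := by exact_mod_cast h1
      rw [hζ]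
      simp only
      rw [abs_of_nonneg (by positivity)]
      nlinarith) (by
      intro i hi1 hi2
      have e1 : ∑ j ∈ range (t + 1), (u j ^ i - v j ^ i) = DD i x x' / (L : ℝ) ^ i := by
        rw [Finset.sum_range]
        unfold DD
        rw [Finset.sum_div]
        refine Finset.sum_congr rfl fun j _ => ?_
        rw [hu, hv]
        simp only
        rw [dif_pos j.2, dif_pos j.2, div_pow, div_pow, sub_div]
      rw [e1, abs_div, abs_of_nonneg (by positivity : (0 : ℝ) ≤ (L : ℝ) ^ i)]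
      have h1 := hR i (by omega) hi2
      have h2 : (L : ℝ) ^ (a + 1) ≤ (L : ℝ) ^ i := pow_le_pow_right₀ hL1 (by omega)
      calc |DD i x x'| / (L : ℝ) ^ i ≤ R / (L : ℝ) ^ i := div_le_div_of_nonneg_right h1 (by positivity)
        _ ≤ R / (L : ℝ) ^ (a + 1) := div_le_div_of_nonneg_left hR0 (by positivity) h2)
  have h2 : |u j - v j| ≤ ∑ j ∈ range (t + 1), |u j - v j| :=
    Finset.single_le_sum (f := fun j => |u j - v j|) (fun _ _ => abs_nonneg _) (Finset.mem_range.2 j.2)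
  have hPp : (0 : ℝ) < (P : ℝ) + 1 := by linarith
  have h3 : (1 / 2 : ℝ) ^ (t - a) * ((P : ℝ) + 1) ^ a * |u j - v j| ≤ (t + 1) * (2 * (2 * K * ((P : ℝ) + 1))) ^ (t - a) * (R / (L : ℝ) ^ (a + 1)) :=
    (mul_le_mul_of_nonneg_left h2 (by positivity)).trans key
  have e1 : (x j : ℝ) - x' j = L * (u j - v j) := by
    rw [hu, hv]
    simp only
    rw [dif_pos j.2, dif_pos j.2]
    field_simp
  have h5 : (2 : ℝ) ^ (t - a) * (1 / 2 : ℝ) ^ (t - a) = 1 := by
    rw [← mul_pow]
    norm_num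
  have h6 : ((P : ℝ) + 1) ^ a * |u j - v j| ≤ 2 ^ (t - a) * ((t + 1) * (2 * (2 * K * ((P : ℝ) + 1))) ^ (t - a) * (R / (L : ℝ) ^ (a + 1))) := by
    calc ((P : ℝ) + 1) ^ a * |u j - v j| = 2 ^ (t - a) * (1 / 2 : ℝ) ^ (t - a) * (((P : ℝ) + 1) ^ a * |u j - v j|) := by rw [h5, one_mul]
      _ = 2 ^ (t - a) * ((1 / 2 : ℝ) ^ (t - a) * ((P : ℝ) + 1) ^ a * |u j - v j|) := by ring
      _ ≤ _ := mul_le_mul_of_nonneg_left h3 (by positivity)
  rw [e1, abs_mul, abs_of_pos hL0]
  have hPa : (0 : ℝ) < ((P : ℝ) + 1) ^ a := by positivity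
  have hLa : (0 : ℝ) < (L : ℝ) ^ a := by positivity
  have h7 : |u j - v j| ≤ 2 ^ (t - a) * ((t + 1) * (2 * (2 * K * ((P : ℝ) + 1))) ^ (t - a) * (R / (L : ℝ) ^ (a + 1))) / ((P : ℝ) + 1) ^ a := by
    rw [le_div_iff₀ hPa]
    linarith
  have h8 : (2 * (2 * (K : ℝ) * ((P : ℝ) + 1))) ^ (t - a) = (2 * (2 * K)) ^ (t - a) * ((P : ℝ) + 1) ^ (t - a) := by
    rw [← mul_pow]
    ring
  have h9 : (2 * (2 * (K : ℝ))) ^ (t - a) ≤ (2 * (2 * K)) ^ t := pow_le_pow_right₀ (by linarith) (by omega)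
  have h10 : (2 : ℝ) ^ (t - a) ≤ 2 ^ t := pow_le_pow_right₀ (by norm_num) (by omega)
  have h11 : (2 : ℝ) ^ (t - a) * ((t + 1) * (2 * (2 * (K : ℝ))) ^ (t - a)) ≤ 2 ^ t * ((t + 1) * (2 * (2 * K)) ^ t) :=
    mul_le_mul h10 (mul_le_mul_of_nonneg_left h9 (by positivity)) (by positivity) (by positivity)
  have h12 : 0 ≤ R * ((P : ℝ) + 1) ^ (t - a) / (((P : ℝ) + 1) * L) ^ a := by positivity
  calc (L : ℝ) * |u j - v j| ≤ L * (2 ^ (t - a) * ((t + 1) * (2 * (2 * K * ((P : ℝ) + 1))) ^ (t - a) * (R / (L : ℝ) ^ (a + 1))) / ((P : ℝ) + 1) ^ a) :=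
        mul_le_mul_of_nonneg_left h7 hL0.le
    _ = (2 ^ (t - a) * ((t + 1) * (2 * (2 * K)) ^ (t - a))) * (R * ((P : ℝ) + 1) ^ (t - a) / (((P : ℝ) + 1) * L) ^ a) := by
      rw [h8, mul_pow ((P : ℝ) + 1) (L : ℝ) a, pow_succ]
      field_simp
    _ ≤ (2 ^ t * ((t + 1) * (2 * (2 * K)) ^ t)) * (R * ((P : ℝ) + 1) ^ (t - a) / (((P : ℝ) + 1) * L) ^ a) :=
      mul_le_mul_of_nonneg_right h11 h12
    _ ≤ _ := by
      apply mul_le_mul_of_nonneg_right _ h12
      linarith

end Pool.Agent.J4H7.AF
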