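import Pool.Agent.J4H7.AF.Fin0

set_option autoImplicit false

/-!
# Project AF, piece (EXT): finitely many small components (helper7)
-/

namespace Pool.Agent.J4H7.AF

open Finset MeasureTheory Filter Topology
open Pool.Agent.J4H7.WE (JJ FFs KK FFs_cont JJ_eq ee_orth ee_add ee_cont ee_norm')
open Pool.Agent.J4H7.WS (Fn ESall fr fsR)
open Pool.Agent.J4H7.WT (PT)
open Pool.Agent.Helper153.Vdc (ee)

/-- the number of representations, with the integer floor -/
noncomputable def repZ (f : ℝ → ℝ) (s N : ℕ) : ℕ := {x : Fin s → ℕ | (∀ i, 1 ≤ x i) ∧ ∑ i, ⌊f (x i)⌋ = (N : ℤ)}.ncard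

lemma ee_zero' : ee 0 = 1 := by
  unfold ee
  simp

lemma ee_fsum {ι : Type*} (T : Finset ι) (v : ι → ℝ) : ee (∑ i ∈ T, v i) = ∏ i ∈ T, ee (v i) := by
  classical
  induction T using Finset.induction_on with
  | empty => simp [ee_zero']
  | insert a T ha ih => rw [Finset.sum_insert ha, Finset.prod_insert ha, ee_add, ih]

/-- the generating function of a power is the power -/
lemma FF_pow (S : Finset ℕ) (h : ℕ → ℕ) (m : ℕ) (β : ℝ) :
    FFs (CB m S) (fun x => ∑ i, h (x i)) β = (∑ a ∈ S, ee (β * h a)) ^ m := by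
  unfold FFs CB
  have h1 := Finset.prod_univ_sum (fun _ : Fin m => S) (fun (_ : Fin m) (a : ℕ) => ee (β * h a))
  rw [Finset.prod_const, Finset.card_univ, Fintype.card_fin] at h1
  rw [h1]
  refine Finset.sum_congr rfl fun x _ => ?_
  rw [← ee_fsum]
  congr 1
  push_cast
  rw [Finset.mul_sum]

open scoped Classical in
/-- the number of representations by an integral -/
lemma cnt_eq {ι : Type*} (A : Finset ι) (f : ι → ℕ) (n : ℕ) : (((A.filter fun x => f x = n).card : ℝ) : ℂ) =
    ∫ β in (-(1 / 2) : ℝ)..(1 / 2), FFs A f β * ee (-(n * β)) := by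
  have hc := ee_cont
  have e1 : ∀ β : ℝ, FFs A f β * ee (-(n * β)) = ∑ a ∈ A, ee ((((f a : ℤ) - n : ℤ) : ℝ) * β) := by
    intro β
    unfold FFs
    rw [Finset.sum_mul]
    refine Finset.sum_congr rfl fun a _ => ?_
    rw [← ee_add]
    congr 1
    push_cast
    ring
  simp_rw [e1]
  rw [intervalIntegral.integral_finsetSum, Finset.card_filter]
  · push_cast
    refine Finset.sum_congr rfl fun a _ => ?_
    have ho := ee_orth ((f a : ℤ) - n)
    push_cast at ho
    rw [ho]
    by_cases h : f a = n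
    · rw [if_pos h, if_pos (by omega)]
      simp
    · rw [if_neg h, if_neg (by omega)]
      simp
  · intro a _
    apply Continuous.intervalIntegrable
    fun_prop

open scoped Classical in
/-- at least `2 k` variables -/
lemma cnt_le {k m : ℕ} (hm : 2 * k ≤ m) (S : Finset ℕ) (h : ℕ → ℕ) (n : ℕ) :
    (((CB m S).filter fun x => ∑ i, h (x i) = n).card : ℝ) ≤ (S.card : ℝ) ^ (m - 2 * k) * JJ (CB k S) fun x => ∑ i, h (x i) := by
  have hc := ee_cont
  have h1 := cnt_eq (CB m S) (fun x => ∑ i, h (x i)) n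
  have hF := FFs_cont (CB m S) fun x => ∑ i, h (x i)
  have hFk := FFs_cont (CB k S) fun x => ∑ i, h (x i)
  have h2 : (((CB m S).filter fun x => ∑ i, h (x i) = n).card : ℝ) =
      ‖∫ β in (-(1 / 2) : ℝ)..(1 / 2), FFs (CB m S) (fun x => ∑ i, h (x i)) β * ee (-(n * β))‖ := by
    rw [← h1, Complex.norm_real, Real.norm_of_nonneg (by positivity)]
  rw [h2, ← JJ_eq, ← intervalIntegral.integral_const_mul]
  refine (intervalIntegral.norm_integral_le_integral_norm (by norm_num)).trans ?_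
  apply intervalIntegral.integral_mono_on (by norm_num)
  · apply Continuous.intervalIntegrable
    fun_prop
  · apply Continuous.intervalIntegrable
    fun_prop
  · intro β _
    rw [norm_mul, ee_norm', mul_one, FF_pow, FF_pow, norm_pow, norm_pow, ← pow_mul, mul_comm k 2]
    have h3 : ‖∑ a ∈ S, ee (β * h a)‖ ≤ S.card := by
      refine (norm_sum_le _ _).trans ?_
      calc ∑ a ∈ S, ‖ee (β * h a)‖ ≤ ∑ _a ∈ S, (1 : ℝ) := Finset.sum_le_sum fun a _ => by rw [ee_norm']
        _ = _ := by simp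
    calc ‖∑ a ∈ S, ee (β * h a)‖ ^ m = ‖∑ a ∈ S, ee (β * h a)‖ ^ (m - 2 * k) * ‖∑ a ∈ S, ee (β * h a)‖ ^ (2 * k) := by
          rw [← pow_add]
          congr 1
          omega
      _ ≤ _ := mul_le_mul_of_nonneg_right (pow_le_pow_left₀ (norm_nonneg _) h3 _) (by positivity)

open scoped Classical in
/-- representations lie in a box -/
lemma rep_sub {k m M n : ℕ} (hk : 1 ≤ k) {g : ℝ → ℝ} (hg : ∀ n : ℕ, n ^ k ≤ fr g n) (hn : n ≤ M ^ k) :
    {x : Fin m → ℕ | (∀ i, 1 ≤ x i) ∧ ∑ i, fr g (x i) = n} ⊆ ↑((CB m (range (M + 1))).filter fun x => ∑ i, fr g (x i) = n) := by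
  intro x hx
  rw [Finset.mem_coe, Finset.mem_filter]
  refine ⟨?_, hx.2⟩
  unfold CB
  rw [Fintype.mem_piFinset]
  intro i
  rw [Finset.mem_range]
  have h1 : fr g (x i) ≤ n := by
    rw [← hx.2]
    exact Finset.single_le_sum (f := fun i => fr g (x i)) (fun _ _ => Nat.zero_le _) (Finset.mem_univ i)
  have h2 : x i ^ k ≤ M ^ k := (hg _).trans (h1.trans hn)
  have h3 : x i ≤ M := (Nat.pow_le_pow_iff_left (by omega)).1 h2
  omega

lemma rep_le {k m M n : ℕ} (hk : 1 ≤ k) (hm : 2 * k ≤ m) {g : ℝ → ℝ} (hg : ∀ n : ℕ, n ^ k ≤ fr g n) (hn : n ≤ M ^ k) :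
    (rep g m n : ℝ) ≤ ((M : ℝ) + 1) ^ (m - 2 * k) * JJ (CB k (range (M + 1))) (fsR g) := by
  classical
  have h1 := Set.ncard_le_ncard (rep_sub (m := m) hk hg hn) (Finset.finite_toSet _)
  rw [Set.ncard_coe_finset] at h1
  have h2 := cnt_le hm (range (M + 1)) (fr g) n
  rw [Finset.card_range] at h2
  push_cast at h2
  unfold rep
  exact (Nat.cast_le.2 h1).trans h2

/-- the floor at the shifted argument -/
lemma fl_shift {k c : ℕ} {f : ℝ → ℝ} (hg : ∀ n : ℕ, n ^ k ≤ fr (fun z => f (z + c)) n) {n : ℕ} (hn : 1 ≤ n) :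
    ⌊f ((n + c : ℕ) : ℝ)⌋ = (fr (fun z => f (z + c)) n : ℤ) := by
  have h1 : 1 ≤ fr (fun z => f (z + c)) n := le_trans (Nat.one_le_pow _ _ hn) (hg n)
  unfold fr at h1 ⊢
  have h2 := (Nat.one_le_floor_iff _).1 h1
  push_cast at h2 ⊢
  rw [Int.natCast_floor_eq_floor (by linarith)]

/-- the bound for the values at small arguments -/
noncomputable def BB0 (f : ℝ → ℝ) (c s : ℕ) : ℕ := s * (fr (fun z => f (z + c)) 1 + ∑ n ∈ range (c + 1), ⌊f n⌋.natAbs)

open scoped Classical in
/-- **the tuples with a small component** -/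
lemma bad_le {k s' c M N : ℕ} (hk : 1 ≤ k) (hm : 2 * k ≤ s') {f : ℝ → ℝ} (hg : ∀ n : ℕ, n ^ k ≤ fr (fun z => f (z + c)) n)
    (hM : N + BB0 f c (s' + 1) ≤ M ^ k) (T : Finset (Fin (s' + 1) → ℕ)) (hT : ∀ x ∈ T, (∀ i, 1 ≤ x i) ∧ ∑ i, ⌊f (x i)⌋ = (N : ℤ) ∧ ∃ i, x i ≤ c) :
    (T.card : ℝ) ≤ ((c : ℝ) + 1) ^ (s' + 1) * (((M : ℝ) + 1) ^ (s' - 2 * k) * JJ (CB k (range (M + 1))) (fsR fun z => f (z + c))) := by
  set g : ℝ → ℝ := fun z => f (z + c) with hgd
  set D : ℝ := ((M : ℝ) + 1) ^ (s' - 2 * k) * JJ (CB k (range (M + 1))) (fsR g) with hD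
  have hD0 : 0 ≤ D := by positivity
  set π : (Fin (s' + 1) → ℕ) → (Fin (s' + 1) → ℕ) := fun x i => if x i ≤ c then x i else 0 with hπ
  have hfib : ∀ w ∈ T.image π, ((T.filter fun x => π x = w).card : ℝ) ≤ D := by
    intro w hw
    obtain ⟨x0, hx0, hx0w⟩ := Finset.mem_image.1 hw
    obtain ⟨h1, -, i0, hi0⟩ := hT x0 hx0
    have hw0 : w i0 ≠ 0 := by
      rw [← hx0w, hπ]
      simp only
      rw [if_pos hi0]
      have := h1 i0
      omega
    have hwc : ∀ i, w i ≤ c := by
      intro i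
      rw [← hx0w, hπ]
      simp only
      split_ifs with h
      · exact h
      · omega
    set e : (Fin (s' + 1) → ℕ) → Fin (s' + 1) → ℕ := fun x i => if w i = 0 then x i - c else 1 with he
    set κ : ℤ := ∑ i, (if w i = 0 then 0 else (fr g 1 : ℤ) - ⌊f (w i)⌋) with hκ
    -- the fibre
    have hF : ∀ x ∈ T.filter (fun x => π x = w), (∀ i, w i ≠ 0 → x i = w i) ∧ (∀ i, w i = 0 → c < x i) := by
      intro x hx
      obtain ⟨hx1, hx2⟩ := Finset.mem_filter.1 hx
      constructor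
      · intro i hi
        have h2 : π x i = w i := by rw [hx2]
        rw [hπ] at h2
        simp only at h2
        split_ifs at h2 with h3
        · exact h2
        · omega
      · intro i hi
        have h2 : π x i = w i := by rw [hx2]
        rw [hπ] at h2
        simp only at h2
        have h4 := (hT x hx1).1 i
        split_ifs at h2 with h3
        · omega
        · omega
    have hsum : ∀ x ∈ T.filter (fun x => π x = w), ∑ j : Fin s', (fr g (e x (i0.succAbove j)) : ℤ) = N + κ - fr g 1 := by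
      intro x hx
      obtain ⟨hx1, hx2⟩ := hF x hx
      have h2 := (hT x (Finset.mem_filter.1 hx).1).2.1
      have h3 : ∑ i, (fr g (e x i) : ℤ) = N + κ := by
        rw [← h2, hκ, ← Finset.sum_add_distrib]
        refine Finset.sum_congr rfl fun i _ => ?_
        rw [he]
        simp only
        by_cases hi : w i = 0
        · rw [if_pos hi, if_pos hi, add_zero]
          have h4 := hx2 i hi
          have h5 := fl_shift (n := x i - c) hg (by omega)
          rw [Nat.sub_add_cancel h4.le] at h5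
          rw [h5]
        · rw [if_neg hi, if_neg hi, hx1 i hi]
          ring
      rw [Fin.sum_univ_succAbove _ i0] at h3
      have h4 : e x i0 = 1 := by
        rw [he]
        simp only
        rw [if_neg hw0]
      rw [h4] at h3
      linarith
    have hκ2 : κ ≤ BB0 f c (s' + 1) := by
      rw [hκ]
      unfold BB0
      push_cast
      have h4 : ∀ i : Fin (s' + 1), (if w i = 0 then (0 : ℤ) else (fr g 1 : ℤ) - ⌊f (w i)⌋) ≤
          (fr g 1 : ℤ) + ∑ n ∈ range (c + 1), |⌊f n⌋| := by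
        intro i
        have h5 : |⌊f (w i)⌋| ≤ ∑ n ∈ range (c + 1), |⌊f n⌋| :=
          Finset.single_le_sum (f := fun n : ℕ => |⌊f n⌋|) (fun _ _ => abs_nonneg _) (Finset.mem_range.2 (by have := hwc i; omega))
        have h6 := neg_abs_le (⌊f (w i)⌋)
        have h7 : (0 : ℤ) ≤ fr g 1 := by positivity
        have h8 := abs_nonneg (⌊f (w i)⌋)
        split_ifs
        · linarith
        · linarith
      refine (Finset.sum_le_sum fun i _ => h4 i).trans (le_of_eq ?_)
      rw [Finset.sum_const, Finset.card_univ, Fintype.card_fin, nsmul_eq_mul]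
      push_cast
      rfl
    -- the injection
    set n' : ℕ := (N + κ - fr g 1).toNat with hn'
    have hn'M : n' ≤ M ^ k := by
      have h7 : (0 : ℤ) ≤ fr g 1 := by positivity
      have h9 : n' ≤ N + BB0 f c (s' + 1) := by
        rw [hn', Int.toNat_le]
        push_cast
        linarith
      exact h9.trans hM
    have h2 : (T.filter fun x => π x = w).card ≤ rep g s' n' := by
      unfold rep
      rw [← Set.ncard_coe_finset]
      refine Set.ncard_le_ncard_of_injOn (fun x j => e x (i0.succAbove j)) ?_ ?_ ((Finset.finite_toSet _).subset (rep_sub hk hg hn'M))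
      · intro x hx
        rw [Finset.mem_coe] at hx
        constructor
        · intro j
          rw [he]
          simp only
          split_ifs with h3
          · have := (hF x hx).2 _ h3
            omega
          · exact le_rfl
        · have h3 := hsum x hx
          have h4 : (0 : ℤ) ≤ N + κ - fr g 1 := by
            rw [← h3]
            positivity
          zify
          rw [hn', Int.toNat_of_nonneg h4]
          exact h3
      · intro x hx y hy hxy
        rw [Finset.mem_coe] at hx hy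
        funext i
        by_cases hi : w i = 0
        · have hne : i ≠ i0 := by
            intro h
            rw [h] at hi
            exact hw0 hi
          obtain ⟨j, rfl⟩ := Fin.exists_succAbove_eq hne
          have h3 := congrFun hxy j
          rw [he] at h3
          simp only at h3
          rw [if_pos hi, if_pos hi] at h3
          have h4 := (hF x hx).2 _ hi
          have h5 := (hF y hy).2 _ hi
          omega
        · rw [(hF x hx).1 i hi, (hF y hy).1 i hi]
    exact (Nat.cast_le.2 h2).trans (rep_le hk hm hg hn'M)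
  have him : (T.image π).card ≤ (c + 1) ^ (s' + 1) := by
    have h1 : T.image π ⊆ Fintype.piFinset fun _ : Fin (s' + 1) => range (c + 1) := by
      intro w hw
      obtain ⟨x, hx, rfl⟩ := Finset.mem_image.1 hw
      rw [Fintype.mem_piFinset]
      intro i
      rw [hπ, Finset.mem_range]
      simp only
      split_ifs <;> omega
    have h2 := Finset.card_le_card h1
    rw [Fintype.card_piFinset] at h2
    simpa using h2
  have h3 := Finset.card_eq_sum_card_image π T
  calc (T.card : ℝ) = ∑ w ∈ T.image π, ((T.filter fun x => π x = w).card : ℝ) := by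
        rw [h3]
        push_cast
        rfl
    _ ≤ ∑ _w ∈ T.image π, D := Finset.sum_le_sum hfib
    _ = ((T.image π).card : ℝ) * D := by simp
    _ ≤ ((c : ℝ) + 1) ^ (s' + 1) * D := by
        apply mul_le_mul_of_nonneg_right _ hD0
        exact_mod_cast him

/-- the size of `M` -/
lemma size_M {k : ℕ} (hk : 1 ≤ k) {N B : ℕ} (hN : 1 ≤ N) (hB : B ≤ N) :
    N + B ≤ (2 * (⌊(N : ℝ) ^ (1 / (k : ℝ))⌋₊ + 1)) ^ k ∧
      ((2 * (⌊(N : ℝ) ^ (1 / (k : ℝ))⌋₊ + 1) : ℕ) : ℝ) ≤ 4 * (N : ℝ) ^ (1 / (k : ℝ)) := by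
  have hk0 : (k : ℝ) ≠ 0 := by
    have : k ≠ 0 := by omega
    exact_mod_cast this
  have hN1 : (1 : ℝ) ≤ N := by exact_mod_cast hN
  set r : ℝ := (N : ℝ) ^ (1 / (k : ℝ)) with hr
  have hr1 : 1 ≤ r := Real.one_le_rpow hN1 (by positivity)
  have hrk : r ^ k = N := by
    rw [hr, ← Real.rpow_natCast, ← Real.rpow_mul (by positivity), one_div, inv_mul_cancel₀ hk0, Real.rpow_one]
  have h1 : r < (⌊r⌋₊ : ℝ) + 1 := Nat.lt_floor_add_one r
  have h2 : (⌊r⌋₊ : ℝ) ≤ r := Nat.floor_le (by linarith)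
  constructor
  · have h3 : (N : ℝ) ≤ (((⌊r⌋₊ + 1) ^ k : ℕ) : ℝ) := by
      push_cast
      rw [← hrk]
      exact pow_le_pow_left₀ (by linarith) h1.le k
    have h4 : N ≤ (⌊r⌋₊ + 1) ^ k := by exact_mod_cast h3
    have h5 : 2 ≤ 2 ^ k := by
      calc 2 = 2 ^ 1 := by norm_num
        _ ≤ 2 ^ k := Nat.pow_le_pow_right (by norm_num) hk
    rw [mul_pow]
    calc N + B ≤ 2 * N := by omega
      _ ≤ 2 ^ k * (⌊r⌋₊ + 1) ^ k := Nat.mul_le_mul h5 h4
  · push_cast
    linarith

lemma repZ_split {k s' c N : ℕ} (hk : 1 ≤ k) {f : ℝ → ℝ} (hg : ∀ n : ℕ, n ^ k ≤ fr (fun z => f (z + c)) n) :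
    ∃ T : Finset (Fin (s' + 1) → ℕ), (∀ x ∈ T, (∀ i, 1 ≤ x i) ∧ ∑ i, ⌊f (x i)⌋ = (N : ℤ) ∧ ∃ i, x i ≤ c) ∧
      repZ f (s' + 1) N = rep (fun z => f (z + c)) (s' + 1) N + T.card := by
  classical
  set g : ℝ → ℝ := fun z => f (z + c) with hgd
  -- finiteness
  have hfin : {x : Fin (s' + 1) → ℕ | (∀ i, 1 ≤ x i) ∧ ∑ i, ⌊f (x i)⌋ = (N : ℤ)}.Finite := by
    set B : ℤ := ∑ n ∈ range (c + 1), |⌊f n⌋| with hB
    have hB0 : 0 ≤ B := Finset.sum_nonneg fun _ _ => abs_nonneg _
    have hlow : ∀ n : ℕ, 1 ≤ n → -B ≤ ⌊f n⌋ := by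
      intro n hn
      rcases Nat.lt_or_ge c n with h | h
      · have h5 := fl_shift (n := n - c) hg (by omega)
        rw [Nat.sub_add_cancel h.le] at h5
        rw [h5]
        have : (0 : ℤ) ≤ (fr (fun z => f (z + c)) (n - c) : ℤ) := by positivity
        linarith
      · have h5 : |⌊f n⌋| ≤ B :=
          Finset.single_le_sum (f := fun n : ℕ => |⌊f n⌋|) (fun _ _ => abs_nonneg _) (Finset.mem_range.2 (by omega))
        linarith [neg_abs_le ⌊f n⌋]
    apply (Finset.finite_toSet (Fintype.piFinset fun _ : Fin (s' + 1) => range (c + N + (s' + 1) * B.toNat + 1))).subset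
    intro x hx
    obtain ⟨hx1, hx2⟩ := hx
    rw [Finset.mem_coe, Fintype.mem_piFinset]
    intro i
    rw [Finset.mem_range]
    rcases Nat.lt_or_ge c (x i) with h | h
    · have h3 : (⌊f (x i)⌋ : ℤ) + ∑ j : Fin s', (⌊f (x (i.succAbove j))⌋ : ℤ) = N := by
        rw [← hx2, Fin.sum_univ_succAbove _ i]
      have h4 : -(s' * B) ≤ ∑ j : Fin s', (⌊f (x (i.succAbove j))⌋ : ℤ) := by
        calc -(s' * B) = ∑ _j : Fin s', -B := by simp
          _ ≤ _ := Finset.sum_le_sum fun j _ => hlow _ (hx1 _)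
      have h5 := fl_shift (n := x i - c) hg (by omega)
      rw [Nat.sub_add_cancel h.le] at h5
      rw [h5] at h3
      have h6 : x i - c ≤ fr g (x i - c) := by
        calc x i - c ≤ (x i - c) ^ k := Nat.le_self_pow (by omega) _
          _ ≤ _ := hg _
      have h7 : ((x i - c : ℕ) : ℤ) ≤ fr g (x i - c) := by exact_mod_cast h6
      have h8 : ((B.toNat : ℕ) : ℤ) = B := Int.toNat_of_nonneg hB0
      have h9 : ((x i - c : ℕ) : ℤ) ≤ ((N + s' * B.toNat : ℕ) : ℤ) := by
        push_cast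
        rw [h8]
        linarith
      have h10 : x i - c ≤ N + s' * B.toNat := by exact_mod_cast h9
      have h11 : s' * B.toNat ≤ (s' + 1) * B.toNat := Nat.mul_le_mul_right _ (by omega)
      omega
    · omega
  -- the split
  set S : Finset (Fin (s' + 1) → ℕ) := hfin.toFinset with hS
  have hSm : ∀ x, x ∈ S ↔ (∀ i, 1 ≤ x i) ∧ ∑ i, ⌊f (x i)⌋ = (N : ℤ) := by
    intro x
    rw [hS, Set.Finite.mem_toFinset]
    rfl
  refine ⟨S.filter fun x => ∃ i, x i ≤ c, ?_, ?_⟩
  · intro x hx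
    obtain ⟨h1, h2⟩ := Finset.mem_filter.1 hx
    exact ⟨((hSm x).1 h1).1, ((hSm x).1 h1).2, h2⟩
  · have e1 : repZ f (s' + 1) N = S.card := by
      unfold repZ
      rw [hS, Set.ncard_eq_toFinset_card _ hfin]
    have e2 : rep g (s' + 1) N = (S.filter fun x => ¬ ∃ i, x i ≤ c).card := by
      unfold rep
      rw [← Set.ncard_coe_finset]
      have e3 : (((S.filter fun x => ¬ ∃ i, x i ≤ c) : Finset (Fin (s' + 1) → ℕ)) : Set (Fin (s' + 1) → ℕ)) =
          (fun (y : Fin (s' + 1) → ℕ) i => y i + c) '' {x : Fin (s' + 1) → ℕ | (∀ i, 1 ≤ x i) ∧ ∑ i, fr g (x i) = N} := by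
        ext x
        rw [Finset.mem_coe, Finset.mem_filter, hSm, Set.mem_image]
        constructor
        · rintro ⟨⟨h1, h2⟩, h3⟩
          push Not at h3
          refine ⟨fun i => x i - c, ⟨fun i => Nat.sub_pos_of_lt (h3 i), ?_⟩, ?_⟩
          · zify
            rw [← h2]
            refine Finset.sum_congr rfl fun i _ => ?_
            have h5 := fl_shift (n := x i - c) hg (by have := h3 i; omega)
            rw [Nat.sub_add_cancel (h3 i).le] at h5
            rw [h5]
          · funext i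
            have := h3 i
            simp only
            omega
        · rintro ⟨y, ⟨h1, h2⟩, rfl⟩
          refine ⟨⟨fun i => le_trans (h1 i) (Nat.le_add_right _ _), ?_⟩, ?_⟩
          · rw [← h2]
            push_cast
            refine Finset.sum_congr rfl fun i _ => ?_
            have h5 := fl_shift (n := y i) hg (h1 i)
            push_cast at h5
            rw [h5]
          · push Not
            intro i
            have := h1 i
            show c < y i + c
            omega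
      rw [e3, Set.ncard_image_of_injective]
      intro y y' h
      funext i
      have := congrFun h i
      simp only at this
      omega
    rw [e1, e2]
    have := Finset.card_filter_add_card_filter_not (s := S) fun x => ∃ i, x i ≤ c
    omega

/-- **(EXT)** -/
theorem t_EXTZ {k s c : ℕ} (hk : 2 ≤ k) (hs : 2 * k + 1 ≤ s) {f : ℝ → ℝ} (hg : ∀ n : ℕ, n ^ k ≤ fr (fun z => f (z + c)) n)
    (hMV : MVf k fun z => f (z + c)) {γ : ℝ}
    (h : Tendsto (fun N : ℕ => (rep (fun z => f (z + c)) s N : ℝ) / (N : ℝ) ^ ((s : ℝ) / k - 1)) atTop (𝓝 γ)) :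
    Tendsto (fun N : ℕ => (repZ f s N : ℝ) / (N : ℝ) ^ ((s : ℝ) / k - 1)) atTop (𝓝 γ) := by
  classical
  obtain ⟨s', rfl⟩ : ∃ s', s = s' + 1 := ⟨s - 1, by omega⟩
  have hk0 : (0 : ℝ) < k := by
    have : 0 < k := by omega
    exact_mod_cast this
  choose T hT1 hT2 using fun N : ℕ => repZ_split (s' := s') (c := c) (N := N) (by omega : 1 ≤ k) hg
  -- the error
  set MM : ℕ → ℕ := fun N => 2 * (⌊(N : ℝ) ^ (1 / (k : ℝ))⌋₊ + 1) with hMM
  have hMMt : Tendsto MM atTop atTop := by
    have h1 : Tendsto (fun N : ℕ => ⌊(N : ℝ) ^ (1 / (k : ℝ))⌋₊) atTop atTop :=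
      tendsto_nat_floor_atTop.comp ((tendsto_rpow_atTop (by positivity)).comp tendsto_natCast_atTop_atTop)
    refine tendsto_atTop_mono (fun N => ?_) h1
    rw [hMM]
    simp only
    omega
  set C0 : ℝ := ((c : ℝ) + 1) ^ (s' + 1) * 8 ^ (s' - 2 * k) * (4 : ℝ) ^ ((k : ℝ) + 1 / 2) with hC0
  have hC00 : 0 ≤ C0 := by positivity
  have herr : ∀ᶠ N : ℕ in atTop, ((T N).card : ℝ) / (N : ℝ) ^ (((s' + 1 : ℕ) : ℝ) / k - 1) ≤ C0 * (N : ℝ) ^ (-(1 / (2 * (k : ℝ)))) := by
    filter_upwards [hMMt.eventually (hMV (1 / 2) (by norm_num)), eventually_ge_atTop 1, eventually_ge_atTop (BB0 f c (s' + 1))] with N h1 h2 h3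
    obtain ⟨h4, h5⟩ := size_M (k := k) (by omega) h2 h3
    have hN1 : (1 : ℝ) ≤ N := by exact_mod_cast h2
    have hN0 : (0 : ℝ) < N := by linarith
    set r : ℝ := (N : ℝ) ^ (1 / (k : ℝ)) with hr
    have hr1 : 1 ≤ r := Real.one_le_rpow hN1 (by positivity)
    have h6 := bad_le (k := k) (s' := s') (M := MM N) (by omega) (by omega) hg h4 (T N) (hT1 N)
    have h7 : ((MM N : ℕ) : ℝ) ≤ 4 * r := h5
    have h8 : (((MM N : ℕ) : ℝ) + 1) ^ (s' - 2 * k) ≤ 8 ^ (s' - 2 * k) * r ^ (s' - 2 * k) := by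
      rw [← mul_pow]
      exact pow_le_pow_left₀ (by positivity) (by linarith) _
    have h9 : ((MM N : ℕ) : ℝ) ^ ((k : ℝ) + 1 / 2) ≤ (4 : ℝ) ^ ((k : ℝ) + 1 / 2) * r ^ ((k : ℝ) + 1 / 2) := by
      rw [← Real.mul_rpow (by norm_num) (by linarith)]
      exact Real.rpow_le_rpow (by positivity) h7 (by positivity)
    have h10 : ((T N).card : ℝ) ≤ C0 * (r ^ (s' - 2 * k) * r ^ ((k : ℝ) + 1 / 2)) := by
      calc ((T N).card : ℝ) ≤ ((c : ℝ) + 1) ^ (s' + 1) * ((((MM N : ℕ) : ℝ) + 1) ^ (s' - 2 * k) * JJ (CB k (range (MM N + 1))) (fsR fun z => f (z + c))) := h6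
        _ ≤ ((c : ℝ) + 1) ^ (s' + 1) * ((8 ^ (s' - 2 * k) * r ^ (s' - 2 * k)) * ((4 : ℝ) ^ ((k : ℝ) + 1 / 2) * r ^ ((k : ℝ) + 1 / 2))) := by
            apply mul_le_mul_of_nonneg_left _ (by positivity)
            exact mul_le_mul h8 (h1.trans h9) (by positivity) (by positivity)
        _ = _ := by
            rw [hC0]
            ring
    have h11 : r ^ (s' - 2 * k) * r ^ ((k : ℝ) + 1 / 2) = (N : ℝ) ^ (((s' + 1 : ℕ) : ℝ) / k - 1) * (N : ℝ) ^ (-(1 / (2 * (k : ℝ)))) := by
      rw [← Real.rpow_natCast r, hr, ← Real.rpow_mul hN0.le, ← Real.rpow_mul hN0.le, ← Real.rpow_add hN0, ← Real.rpow_add hN0]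
      congr 1
      rw [Nat.cast_sub (by omega)]
      push_cast
      field_simp
      ring
    rw [h11] at h10
    have h12 : (0 : ℝ) < (N : ℝ) ^ (((s' + 1 : ℕ) : ℝ) / k - 1) := Real.rpow_pos_of_pos hN0 _
    rw [div_le_iff₀ h12]
    linarith
  have hz : Tendsto (fun N : ℕ => C0 * (N : ℝ) ^ (-(1 / (2 * (k : ℝ))))) atTop (𝓝 0) := by
    have h1 : Tendsto (fun N : ℕ => (N : ℝ) ^ (-(1 / (2 * (k : ℝ))))) atTop (𝓝 0) :=
      (tendsto_rpow_neg_atTop (by positivity)).comp tendsto_natCast_atTop_atTop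
    simpa using h1.const_mul C0
  have herr2 : Tendsto (fun N : ℕ => ((T N).card : ℝ) / (N : ℝ) ^ (((s' + 1 : ℕ) : ℝ) / k - 1)) atTop (𝓝 0) :=
    squeeze_zero' (Eventually.of_forall fun N => by positivity) herr hz
  have h2 := h.add herr2
  rw [add_zero] at h2
  refine h2.congr fun N => ?_
  rw [hT2 N]
  push_cast
  ring

end Pool.Agent.J4H7.AF
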