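import Pool.Agent.J4H7.AF.Ext

set_option autoImplicit false

/-!
# Project AF, piece (FIN): assembly (helper7)
-/

namespace Pool.Agent.J4H7.AF

open Finset MeasureTheory Filter Topology
open Pool.Agent.J4H7.WE (JJ FFs KK)
open Pool.Agent.J4H7.WS (Fn ESall fr fsR)
open Pool.Agent.J4H7.WT (PT Tc ae_shift Tc_pos shift_eq)

/-- **the theorem, all real coefficients** -/
theorem fin_of (hMV : S_MV) (hSUP : S_SUP) (hWIN : S_WIN) (hASY : S_ASY) (k : ℕ) (hk : 2 ≤ k) : ∀ᵐ α : Fin k → ℝ,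
    ∀ s : ℕ, 2 * k + 1 ≤ s → Tendsto (fun N : ℕ =>
      ({x : Fin s → ℕ | (∀ i, 1 ≤ x i) ∧ ∑ i, ⌊(x i : ℝ) ^ k + ∑ j : Fin k, α j * (x i : ℝ) ^ (j : ℕ)⌋ = (N : ℤ)}.ncard : ℝ) /
        (N : ℝ) ^ ((s : ℝ) / k - 1)) atTop (𝓝 (Real.Gamma (1 + 1 / k) ^ s / Real.Gamma ((s : ℝ) / k))) := by
  filter_upwards [ae_shift (pos_of hMV hSUP hWIN hASY k hk)] with α hα s hs
  obtain ⟨c, hc⟩ := Tc_pos k α
  obtain ⟨h1, h2⟩ := hα c hc
  have e1 : (fun z : ℝ => PT k α (z + c)) = PT k (Tc k c α) := by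
    funext z
    unfold PT
    exact shift_eq k c α z
  have hg : ∀ n : ℕ, n ^ k ≤ fr (fun z => PT k α (z + c)) n := by
    rw [e1]
    exact PT_lo hc
  have h3 := h2 s hs
  rw [← e1] at h1 h3
  exact t_EXTZ hk hs hg h1 h3

end Pool.Agent.J4H7.AF
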