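import Pool.Agent.J4H7.AF.Stm
import Pool.Agent.J4H7.WT.S

set_option autoImplicit false

/-!
# Project AF, piece (FIN): assembly (helper7)
-/

namespace Pool.Agent.J4H7.AF

open Finset MeasureTheory Filter Topology
open Pool.Agent.J4H7.WE (JJ FFs KK)
open Pool.Agent.J4H7.WS (Fn ESall fr fsR)
open Pool.Agent.J4H7.WT (PT ana_holds ae_DC_pi)

lemma PT_lo {k : ℕ} {α : Fin k → ℝ} (hα : ∀ i, 0 < α i) (n : ℕ) : n ^ k ≤ fr (PT k α) n := by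
  unfold fr PT
  apply Nat.le_floor
  push_cast
  have : 0 ≤ ∑ i : Fin k, α i * (n : ℝ) ^ (i : ℕ) := Finset.sum_nonneg fun i _ => mul_nonneg (hα i).le (by positivity)
  linarith

lemma PT_hi {k : ℕ} (hk : 1 ≤ k) {α : Fin k → ℝ} (hα : ∀ i, 0 < α i) (n : ℕ) (hn : 1 ≤ n) :
    (fr (PT k α) n : ℝ) ≤ ((n : ℝ) + ∑ i, α i) ^ k := by
  have hn1 : (1 : ℝ) ≤ n := by exact_mod_cast hn
  have hS : 0 ≤ ∑ i, α i := Finset.sum_nonneg fun i _ => (hα i).le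
  have h0 : 0 ≤ PT k α n := by
    unfold PT
    have : 0 ≤ ∑ i : Fin k, α i * (n : ℝ) ^ (i : ℕ) := Finset.sum_nonneg fun i _ => mul_nonneg (hα i).le (by positivity)
    positivity
  refine (Nat.floor_le h0).trans ?_
  unfold PT
  obtain ⟨t, rfl⟩ : ∃ t, k = t + 1 := ⟨k - 1, by omega⟩
  have h1 : ∑ i : Fin (t + 1), α i * (n : ℝ) ^ (i : ℕ) ≤ (∑ i, α i) * (n : ℝ) ^ t := by
    rw [Finset.sum_mul]
    refine Finset.sum_le_sum fun i _ => ?_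
    exact mul_le_mul_of_nonneg_left (pow_le_pow_right₀ hn1 (by have := i.2; omega)) (hα i).le
  have h2 : (n : ℝ) ^ t ≤ ((n : ℝ) + ∑ i, α i) ^ t := pow_le_pow_left₀ (by positivity) (by linarith) t
  calc (n : ℝ) ^ (t + 1) + ∑ i : Fin (t + 1), α i * (n : ℝ) ^ (i : ℕ) ≤ (n : ℝ) ^ (t + 1) + (∑ i, α i) * (n : ℝ) ^ t := by linarith
    _ = (n : ℝ) ^ t * ((n : ℝ) + ∑ i, α i) := by ring
    _ ≤ ((n : ℝ) + ∑ i, α i) ^ t * ((n : ℝ) + ∑ i, α i) := mul_le_mul_of_nonneg_right h2 (by positivity)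
    _ = _ := by ring

/-- the mean value -/
def MVf (k : ℕ) (f : ℝ → ℝ) : Prop :=
  ∀ ε : ℝ, 0 < ε → ∀ᶠ M : ℕ in atTop, (JJ (CB k (range (M + 1))) (fsR f) : ℝ) ≤ (M : ℝ) ^ ((k : ℝ) + ε)

/-- **positive coefficients** -/
theorem pos_of (hMV : S_MV) (hSUP : S_SUP) (hWIN : S_WIN) (hASY : S_ASY) (k : ℕ) (hk : 2 ≤ k) : ∀ᵐ α : Fin k → ℝ, (∀ i, 0 < α i) →
    MVf k (PT k α) ∧ ∀ s : ℕ, 2 * k + 1 ≤ s →
    Tendsto (fun N : ℕ => (rep (PT k α) s N : ℝ) / (N : ℝ) ^ ((s : ℝ) / k - 1)) atTop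
      (𝓝 (Real.Gamma (1 + 1 / k) ^ s / Real.Gamma ((s : ℝ) / k))) := by
  filter_upwards [hMV k hk, ae_DC_pi (⟨k - 1, by omega⟩ : Fin k)] with α hM hD hα
  obtain ⟨cD, hcD, hD⟩ := hD
  obtain ⟨hF, hE⟩ := ana_holds k hk α hα
  have hES := hE cD hcD hD
  refine ⟨hM hα, fun s hs => ?_⟩
  obtain ⟨ρ, hρ, hρ1, τ, hτ, C, hC, H⟩ := hSUP k hk (PT k α) hF hES
  obtain ⟨C', hC'⟩ := hWIN k s hk hs (PT k α) (PT_lo hα) (hM hα) ρ τ C hρ hρ1 hτ hC H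
  exact hASY k s hk hs (PT k α) (∑ i, α i) (Finset.sum_nonneg fun i _ => (hα i).le) (PT_lo hα) (fun n hn => PT_hi (by omega) hα n hn)
    ρ τ C' hρ hρ1 hτ hC'

end Pool.Agent.J4H7.AF
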