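import Pool.Agent.J4H7.AF.Close
import Pool.Agent.J4H7.AF.Fin
import Pool.Agent.J4H87.AF.Win
import Pool.Agent.J4H72.AF.Pw
import Pool.Agent.J4H31.AF.Blk
import Pool.Agent.J4H33.AF.Vol
import Pool.Agent.J4H7.AF.Cnt
import Pool.Agent.J4H72.AF.Mean
import Pool.Agent.J4H22.AF.Bc
import Pool.Agent.J4H31.AF.Mv
import Pool.Agent.J4H87.AF.Sup
import Pool.Agent.J4H33.AF.Asy

set_option autoImplicit false

/-!
# Project AF: the main theorem (helper7, with helpers 22, 31, 33, 55, 72, 87)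
-/

namespace Pool.Agent.J4H7.AF

open Finset MeasureTheory Filter Topology

theorem mv : S_MV := Pool.Agent.J4H31.AF.Mv.t_MV (Pool.Agent.J4H22.AF.t_BC (Pool.Agent.J4H72.AF.t_MEAN (t_CNT t_CLOSE)))
  (Pool.Agent.J4H72.AF.t_IT (Pool.Agent.J4H72.AF.t_BN Pool.Agent.J4H72.AF.t_PW))

theorem sup : S_SUP := Pool.Agent.J4H87.AF.Sup.t_SUP Pool.Agent.J4H31.AF.t_BLK

theorem asy : S_ASY := Pool.Agent.J4H33.AF.t_ASY Pool.Agent.J4H33.AF.t_VOL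

/-- **the asymptotic formula** -/
theorem main (k : ℕ) (hk : 2 ≤ k) : ∀ᵐ α : Fin k → ℝ, ∀ s : ℕ, 2 * k + 1 ≤ s → Tendsto (fun N : ℕ =>
      ({x : Fin s → ℕ | (∀ i, 1 ≤ x i) ∧ ∑ i, ⌊(x i : ℝ) ^ k + ∑ j : Fin k, α j * (x i : ℝ) ^ (j : ℕ)⌋ = (N : ℤ)}.ncard : ℝ) /
        (N : ℝ) ^ ((s : ℝ) / k - 1)) atTop (𝓝 (Real.Gamma (1 + 1 / k) ^ s / Real.Gamma ((s : ℝ) / k))) :=
  fin_of mv sup Pool.Agent.J4H87.AF.t_WIN asy k hk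

end Pool.Agent.J4H7.AF
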