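import Pool.Agent.J4H7.WT.Q

set_option autoImplicit false

/-!
# Project AF: the asymptotic formula with `2 k + 1` summands for generic polynomials (helper7)

Exact statements of the pieces.  `k = t + 1` is the degree, `K` the number of subintervals of one step.
-/

namespace Pool.Agent.J4H7.AF

open Finset MeasureTheory Filter Topology
open Pool.Agent.J4H7.WE (JJ FFs KK)
open Pool.Agent.J4H7.WS (Fn ESall fr fsR)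
open Pool.Agent.J4H7.WT (DD Nr EX PT)
open Pool.Agent.Helper153.Vdc (ee)

/-- the interval number `P` of length `L` -/
def Iv (P L : ℕ) : Finset ℕ := Finset.Ico (P * L) ((P + 1) * L)

/-- separated tuples of subintervals -/
def Sep (k K : ℕ) : Finset (Fin k → ℕ) :=
  (Fintype.piFinset fun _ => range K).filter fun c => ∀ i j : Fin k, i < j → c i + 2 ≤ c j

/-- the box of a tuple of subintervals of the interval number `P` of length `K * L` -/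
def BX {k : ℕ} (K P L : ℕ) (c : Fin k → ℕ) : Finset (Fin k → ℕ) := Fintype.piFinset fun i => Iv (K * P + c i) L

/-- all tuples -/
def CB (k : ℕ) (I : Finset ℕ) : Finset (Fin k → ℕ) := Fintype.piFinset fun _ => I

/-- (CLOSE): `u = z / L`, the polynomial `u ^ a * Q(u)`, `Q` with a zero `K P + c_l + 3/2` between the intervals `l` and
`l + 1` where the sign of `x_l - x'_l` changes; model: `J4H7.WT.A.cheb` and `J4H7.WT.B.closeN` -/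
def S_CLOSE : Prop := ∀ t K : ℕ, 1 ≤ K → ∃ C : ℝ, 1 ≤ C ∧ ∀ P L : ℕ, 1 ≤ L → ∀ c ∈ Sep (t + 1) K,
  ∀ x ∈ BX K P L c, ∀ x' ∈ BX K P L c, ∀ a ≤ t, (∀ j : Fin (t + 1), (j : ℕ) < a → x j = x' j) →
  ∀ R : ℝ, (∀ i, 1 ≤ i → i ≤ t + 1 → |DD i x x'| ≤ R) →
  ∀ j, |(x j : ℝ) - x' j| ≤ C * (R * ((P : ℝ) + 1) ^ (t - a) / (((P : ℝ) + 1) * L) ^ a)

open scoped Classical in
/-- (CNT): model `J4H7.WT.B.card_levels` and `J4H7.WT.B2.NR_le`; with `b_a = R (P+1)^(t-a) / ((P+1) L)^a` take the last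
`a ≤ t` with `b_a ≥ 1` -/
def S_CNT : Prop := ∀ t K : ℕ, 1 ≤ K → ∃ C : ℝ, 1 ≤ C ∧ ∀ P L : ℕ, 1 ≤ L → ∀ c ∈ Sep (t + 1) K, ∀ R : ℝ, 1 ≤ R →
  (((BX K P L c ×ˢ BX K P L c).filter fun p => Nr (t + 1) R p.1 p.2).card : ℝ) ≤
    C * (R * ((P : ℝ) + 1) ^ t * (L : ℝ) ^ (t + 1))

/-- (MEAN): one box; model `J4H7.WT.D.mean` (`vol_EX`, `Nr_EX`; all coordinates are `< M`) -/
def S_MEAN : Prop := ∀ (t K : ℕ) (L0 τ : ℝ), 1 ≤ K → 1 ≤ L0 → 0 ≤ τ → ∃ C : ℝ, 1 ≤ C ∧ ∀ P L M : ℕ, 1 ≤ L →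
  K * (P + 1) * L ≤ M → ∀ c ∈ Sep (t + 1) K,
  ∑ p ∈ BX K P L c ×ˢ BX K P L c, volume (EX (t + 1) L0 τ p.1 p.2) ≤
    ENNReal.ofReal (C * ((Nat.log 2 M + 1) * (((P : ℝ) + 1) ^ t * (L : ℝ) ^ (t + 1))))

open scoped Classical in
/-- all near-coincidences in separated boxes -/
noncomputable def TOT (k K m : ℕ) (L0 τ : ℝ) (α : Fin k → ℝ) : ℕ :=
  ∑ l ∈ range m, ∑ P ∈ range (K ^ l), ∑ c ∈ Sep k K,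
    ((BX K P (K ^ (m - l - 1)) c ×ˢ BX K P (K ^ (m - l - 1)) c).filter fun p => α ∈ EX k L0 τ p.1 p.2).card

/-- (BC): Borel-Cantelli; model `J4H7.WT.E.ae_CN` -/
def S_BC : Prop := ∀ (t K : ℕ) (L0 τ : ℝ), 2 ≤ K → 1 ≤ L0 → 0 ≤ τ → ∀ᵐ α : Fin (t + 1) → ℝ, ∀ ε : ℝ, 0 < ε →
  ∀ᶠ m : ℕ in atTop, (TOT (t + 1) K m L0 τ α : ℝ) ≤ ((K : ℝ) ^ m) ^ (((t + 1 : ℕ) : ℝ) + ε)

/-- (PW): pointwise broad-narrow inequality -/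
def S_PW : Prop := ∀ k K : ℕ, 1 ≤ k → 1 ≤ K → ∀ z : ℕ → ℂ,
  ‖∑ c ∈ range K, z c‖ ^ (2 * k) ≤ (4 * (k : ℝ)) ^ (2 * k) * ∑ c ∈ range K, ‖z c‖ ^ (2 * k) +
    (2 * (K : ℝ)) ^ (2 * k) * ∑ c ∈ Sep k K, ∏ i, ‖z (c i)‖ ^ 2

/-- (BN): `JJ_eq`, `FFs` of a product set is a product -/
def S_BN : Prop := ∀ k K : ℕ, 1 ≤ k → 1 ≤ K → ∀ (f : ℝ → ℝ) (P L : ℕ),
  (JJ (CB k (Iv P (K * L))) (fsR f) : ℝ) ≤ (4 * (k : ℝ)) ^ (2 * k) * ∑ c ∈ range K, (JJ (CB k (Iv (K * P + c) L)) (fsR f) : ℝ) +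
    (2 * (K : ℝ)) ^ (2 * k) * ∑ c ∈ Sep k K, (JJ (BX K P L c) (fsR f) : ℝ)

/-- (IT): iteration of (BN) from length `K ^ m` down to length `1` -/
def S_IT : Prop := ∀ k K : ℕ, 1 ≤ k → 1 ≤ K → ∀ (f : ℝ → ℝ) (m : ℕ),
  (JJ (CB k (range (K ^ m))) (fsR f) : ℝ) ≤ ((4 * (k : ℝ)) ^ (2 * k)) ^ m * ((K : ℝ) ^ m + (2 * (K : ℝ)) ^ (2 * k) *
    ∑ l ∈ range m, ∑ P ∈ range (K ^ l), ∑ c ∈ Sep k K, (JJ (BX K P (K ^ (m - l - 1)) c) (fsR f) : ℝ))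

/-- (MV): the full mean value; `K` large in terms of `ε`, model for `JJ ≤ TOT`: `J4H7.WT.E.JJ_le` -/
def S_MV : Prop := ∀ k : ℕ, 2 ≤ k → ∀ᵐ α : Fin k → ℝ, (∀ i, 0 < α i) → ∀ ε : ℝ, 0 < ε → ∀ᶠ M : ℕ in atTop,
  (JJ (CB k (range (M + 1))) (fsR (PT k α)) : ℝ) ≤ (M : ℝ) ^ ((k : ℝ) + ε)

/-- (BLK): the unweighted exponential sums of `⌊f⌋` over one block, from `ESall` and `J4H7.WE.fourier_ww` only.  Proof: `ww t = sin(π t)^2`,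
`1 = ∑_{j < J} ww (1 - ww)^j + (1 - ww)^J`, `1 - ww = (2 + ee t + ee (-t)) / 4`, so `(1 - ww)^j = ∑_{|m| ≤ j} p_m ee (m t)` with `p_m ≥ 0`,
`∑ p_m = 1`; the sums `∑_n ww (f n) ee (m f n) ee (β ⌊f n⌋)` are `≤ C X^(1-σ)` for `|m| ≤ X^κ / 4` (proof of `J4H7.WS.GR_bound`, `SG` at
`h + m + β`), and `∑_n (1 - ww (f n))^J ≤ C (X / √J + X^(1-σ))`; take `J = X^κ'` -/
def S_BLK : Prop := ∀ k : ℕ, 2 ≤ k → ∀ f : ℝ → ℝ, Fn k f → ESall k f → ∀ η : ℝ, 0 < η → η ≤ 1 / 8 →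
  ∃ σ : ℝ, 0 < σ ∧ σ ≤ 1 ∧ ∃ C : ℝ, 1 ≤ C ∧ ∃ X0 : ℝ, 4 ≤ X0 ∧ ∀ X : ℝ, X0 ≤ X →
  ∀ β : ℝ, |β| ≤ 1 / 2 → X ^ (2 * η) ≤ |β| * X ^ (k : ℝ) → ∀ Y M : ℕ, 4 * X ≤ Y → (Y : ℝ) + M ≤ 64 * X + 1 →
  ‖∑ n ∈ range M, ee (β * (⌊f ((Y : ℝ) + n)⌋₊ : ℝ))‖ ≤ C * X ^ (1 - σ)

/-- the generating function -/
noncomputable def SF (f : ℝ → ℝ) (M : ℕ) (β : ℝ) : ℂ := ∑ n ∈ Finset.Icc 1 M, ee (β * (fr f n : ℝ))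

/-- (SUP): from (BLK) by dyadic blocks; small `β` by `KK_small`, as in `J4H7.WU.A.gen_bound` -/
def S_SUP : Prop := ∀ k : ℕ, 2 ≤ k → ∀ f : ℝ → ℝ, Fn k f → ESall k f → ∃ ρ : ℝ, 0 < ρ ∧ ρ ≤ 1 / 4 ∧ ∃ τ : ℝ, 0 < τ ∧
  ∃ C : ℝ, 1 ≤ C ∧ ∀ M : ℕ, 1 ≤ M → ∀ β : ℝ, |β| ≤ 1 / 2 →
  ‖SF f M β‖ * ‖1 - KK ⌈(M : ℝ) ^ ((k : ℝ) - ρ)⌉₊ β‖ ≤ C * (M : ℝ) ^ (1 - τ)

/-- the number of representations -/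
noncomputable def rep (f : ℝ → ℝ) (s N : ℕ) : ℕ := {x : Fin s → ℕ | (∀ i, 1 ≤ x i) ∧ ∑ i, fr f (x i) = N}.ncard

/-- (VOL): lattice points under the graph; `γ = Γ(1 + 1/k)^s / Γ(1 + s/k)` (Mathlib: `MeasureTheory.volume_sum_rpow_le`) -/
def S_VOL : Prop := ∀ k s : ℕ, 2 ≤ k → 1 ≤ s → ∀ (f : ℝ → ℝ) (c : ℝ), 0 ≤ c → (∀ n : ℕ, n ^ k ≤ fr f n) →
  (∀ n : ℕ, 1 ≤ n → (fr f n : ℝ) ≤ ((n : ℝ) + c) ^ k) → ∃ C : ℝ, ∀ T : ℕ, 1 ≤ T →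
  |(({x : Fin s → ℕ | (∀ i, 1 ≤ x i) ∧ ∑ i, fr f (x i) ≤ T}.ncard : ℝ) -
    Real.Gamma (1 + 1 / k) ^ s / Real.Gamma (1 + s / k) * (T : ℝ) ^ ((s : ℝ) / k))| ≤ C * (T : ℝ) ^ (((s : ℝ) - 1) / k)

/-- (WIN): the number of representations is its window average up to a power saving -/
def S_WIN : Prop := ∀ k s : ℕ, 2 ≤ k → 2 * k + 1 ≤ s → ∀ f : ℝ → ℝ, (∀ n : ℕ, n ^ k ≤ fr f n) →
  (∀ ε : ℝ, 0 < ε → ∀ᶠ M : ℕ in atTop, (JJ (CB k (range (M + 1))) (fsR f) : ℝ) ≤ (M : ℝ) ^ ((k : ℝ) + ε)) →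
  ∀ ρ τ C : ℝ, 0 < ρ → ρ ≤ 1 / 4 → 0 < τ → 1 ≤ C → (∀ M : ℕ, 1 ≤ M → ∀ β : ℝ, |β| ≤ 1 / 2 →
    ‖SF f M β‖ * ‖1 - KK ⌈(M : ℝ) ^ ((k : ℝ) - ρ)⌉₊ β‖ ≤ C * (M : ℝ) ^ (1 - τ)) →
  ∃ C' : ℝ, ∀ᶠ N : ℕ in atTop, ∃ W : ℕ, (N : ℝ) ^ (1 - ρ / k) ≤ W ∧ (W : ℝ) ≤ 4 * (N : ℝ) ^ (1 - ρ / k) ∧
    |(rep f s N : ℝ) - 1 / (W : ℝ) * ∑ h ∈ range W, (rep f s (N - h) : ℝ)| ≤ C' * (N : ℝ) ^ ((s : ℝ) / k - 1 - τ / (2 * k))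

/-- (ASY): the asymptotic formula from the window average -/
def S_ASY : Prop := ∀ k s : ℕ, 2 ≤ k → 2 * k + 1 ≤ s → ∀ (f : ℝ → ℝ) (c : ℝ), 0 ≤ c → (∀ n : ℕ, n ^ k ≤ fr f n) →
  (∀ n : ℕ, 1 ≤ n → (fr f n : ℝ) ≤ ((n : ℝ) + c) ^ k) → ∀ ρ τ C' : ℝ, 0 < ρ → ρ ≤ 1 / 4 → 0 < τ →
  (∀ᶠ N : ℕ in atTop, ∃ W : ℕ, (N : ℝ) ^ (1 - ρ / k) ≤ W ∧ (W : ℝ) ≤ 4 * (N : ℝ) ^ (1 - ρ / k) ∧
    |(rep f s N : ℝ) - 1 / (W : ℝ) * ∑ h ∈ range W, (rep f s (N - h) : ℝ)| ≤ C' * (N : ℝ) ^ ((s : ℝ) / k - 1 - τ / (2 * k))) →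
  Tendsto (fun N : ℕ => (rep f s N : ℝ) / (N : ℝ) ^ ((s : ℝ) / k - 1)) atTop
    (𝓝 (Real.Gamma (1 + 1 / k) ^ s / Real.Gamma ((s : ℝ) / k)))

/-- (EXT): from the shifted polynomial to the polynomial; tuples with a component `≤ c` are few by the mean value -/
def S_EXT : Prop := ∀ k s c : ℕ, 2 ≤ k → 2 * k + 1 ≤ s → ∀ f : ℝ → ℝ, (∀ n : ℕ, n ^ k ≤ fr (fun z => f (z + c)) n) →
  (∀ ε : ℝ, 0 < ε → ∀ᶠ M : ℕ in atTop, (JJ (CB k (range (M + 1))) (fsR fun z => f (z + c)) : ℝ) ≤ (M : ℝ) ^ ((k : ℝ) + ε)) →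
  Tendsto (fun N : ℕ => (rep (fun z => f (z + c)) s N : ℝ) / (N : ℝ) ^ ((s : ℝ) / k - 1)) atTop
    (𝓝 (Real.Gamma (1 + 1 / k) ^ s / Real.Gamma ((s : ℝ) / k))) →
  Tendsto (fun N : ℕ => (rep f s N : ℝ) / (N : ℝ) ^ ((s : ℝ) / k - 1)) atTop
    (𝓝 (Real.Gamma (1 + 1 / k) ^ s / Real.Gamma ((s : ℝ) / k)))

/-- (FIN): the theorem, from (MV), (SUP), (VOL), (WIN), (ASY), (EXT); model: `J4H7.WT.S`, `J4H7.WT.U` -/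
def S_FIN : Prop := ∀ k : ℕ, 2 ≤ k → ∀ᵐ α : Fin k → ℝ, ∀ s : ℕ, 2 * k + 1 ≤ s →
  Tendsto (fun N : ℕ => (rep (PT k α) s N : ℝ) / (N : ℝ) ^ ((s : ℝ) / k - 1)) atTop
    (𝓝 (Real.Gamma (1 + 1 / k) ^ s / Real.Gamma ((s : ℝ) / k)))

end Pool.Agent.J4H7.AF
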